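import Pool.Agent.Run7.h400.GK.StmA
import Pool.Agent.Run7.h400.GK.StmB

/-!
# Project GK, piece PA (assembly of part A)
-/

set_option autoImplicit false

namespace Run7.h410.GK

open Polynomial Finset TensorProduct nonZeroDivisors Run7.h400.GK

theorem Lam_add {E : Type} [CommRing E] {q : ℕ} (hq : 1 ≤ q) (a b : E[X]) :
    Lam q (a + b) = Lam q a + Lam q b := by
  ext i; simp [coeff_Lam hq]

theorem Lam_C {E : Type} [CommRing E] {q : ℕ} (hq : 1 ≤ q) (e : E) (a : E[X]) :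
    Lam q (C e * a) = C e * Lam q a := by
  ext i; simp [coeff_Lam hq]

section deriv

variable {F : Type} [Field F] {D : F →+ F}

theorem D_one (hD : ∀ x y, D (x * y) = x * D y + y * D x) : D 1 = 0 := by
  have h := hD 1 1
  simp at h
  exact h

theorem D_pow (hD : ∀ x y, D (x * y) = x * D y + y * D x) (x : F) (n : ℕ) :
    D (x ^ (n + 1)) = (n + 1 : ℕ) * x ^ n * D x := by
  induction n with
  | zero => simp
  | succ n ih =>
    rw [pow_succ, hD, ih]
    push_cast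
    ring

theorem D_pow_p (hD : ∀ x y, D (x * y) = x * D y + y * D x) (p : ℕ) [CharP F p] (hp : 0 < p) (x : F) :
    D (x ^ p) = 0 := by
  obtain ⟨n, rfl⟩ : ∃ n, p = n + 1 := ⟨p - 1, by omega⟩
  rw [D_pow hD, CharP.cast_eq_zero]
  simp

/-- logarithmic derivatives of quotients -/
theorem D_div (hD : ∀ x y, D (x * y) = x * D y + y * D x) {h h' z : F} (hh : h ≠ 0)
    (h1 : D h = z * h) (h2 : D h' = z * h') : D (h' * h⁻¹) = 0 := by
  have h3 : D (h * (h' * h⁻¹)) = h * D (h' * h⁻¹) + h' * h⁻¹ * D h := hD _ _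
  have h4 : h * (h' * h⁻¹) = h' := by field_simp
  rw [h4, h2, h1] at h3
  have h5 : h' * h⁻¹ * (z * h) = z * h' := by field_simp
  rw [h5] at h3
  have h6 : h * D (h' * h⁻¹) = 0 := by
    have := h3.symm
    simpa using this
  rcases mul_eq_zero.mp h6 with h | h
  · exact absurd h hh
  · exact h

theorem D_mul_log (hD : ∀ x y, D (x * y) = x * D y + y * D x) {h h' z z' : F}
    (h1 : D h = z * h) (h2 : D h' = z' * h') : D (h * h') = (z + z') * (h * h') := by
  rw [hD, h1, h2]; ring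

end deriv

theorem exists_kappa (hRTP : S_RTP) {O F E : Type} [CommRing O] [IsDedekindDomain O] [Field F] [Algebra O F]
    [IsFractionRing O F] [AddCommGroup E] (p : ℕ) (hp : 0 < p) (D : F →+ F)
    (hD : ∀ x y, D (x * y) = x * D y + y * D x) (hker : ∀ x, D x = 0 → ∃ y, x = y ^ p)
    (z : E →+ F) (hz : ∀ γ, ∃ (h : F) (c : ClassGroup O), D h = z γ * h ∧ Rt F p h c) :
    ∃ κ : E →+ Additive (ClassGroup O), ∀ γ (h : F) (c : ClassGroup O), D h = z γ * h → Rt F p h c →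
      κ γ = Additive.ofMul c := by
  obtain ⟨R1, R2, -, R4, -⟩ := hRTP O F p hp
  have uniq : ∀ (zz h h' : F) (c c' : ClassGroup O), D h = zz * h → D h' = zz * h' → Rt F p h c →
      Rt F p h' c' → c = c' := by
    intro zz h h' c c' h1 h2 h3 h4
    obtain ⟨y, hy⟩ := hker _ (D_div hD h3.1 h1 h2)
    have h5 := R1 _ _ _ _ h4 (R4 _ _ h3)
    rw [hy] at h5
    have h6 := R2 _ _ h5
    rw [mul_inv_eq_one] at h6
    exact h6.symm
  choose hh cc hh1 hh2 using hz
  refine ⟨AddMonoidHom.mk' (fun γ => Additive.ofMul (cc γ)) ?_, ?_⟩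
  · intro a b
    have h1 : D (hh a * hh b) = z (a + b) * (hh a * hh b) := by
      rw [map_add]
      exact D_mul_log hD (hh1 a) (hh1 b)
    have h2 := R1 _ _ _ _ (hh2 a) (hh2 b)
    have h3 := uniq _ _ _ _ _ (hh1 (a + b)) h1 (hh2 (a + b)) h2
    rw [h3]
    rfl
  · intro γ h c h1 h2
    have h3 := uniq _ _ _ _ _ (hh1 γ) h1 (hh2 γ) h2
    show Additive.ofMul (cc γ) = Additive.ofMul c
    rw [h3]

section units

variable {Fq F : Type} [Field Fq] [Field F] [Algebra Fq[X] F]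

/-- the value in `F` of a unit of the ring of integers, additive notation -/
noncomputable def uv (x : Additive (OF Fq F)ˣ) : F := ((Additive.toMul x : (OF Fq F)ˣ) : OF Fq F)

theorem uv_add (x y : Additive (OF Fq F)ˣ) : uv (x + y) = uv x * uv y := by
  simp [uv]

theorem uv_neg (x : Additive (OF Fq F)ˣ) : uv (-x) = (uv x)⁻¹ := by
  have h : uv (-x + x) = uv (-x) * uv x := uv_add _ _
  have h0 : uv (-x + x) = 1 := by simp [uv]
  rw [h0] at h
  exact eq_inv_of_mul_eq_one_left h.symm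

theorem uv_nsmul (n : ℕ) (x : Additive (OF Fq F)ˣ) : uv (n • x) = uv x ^ n := by
  simp [uv]

theorem uv_ne (x : Additive (OF Fq F)ˣ) : uv x ≠ 0 := by
  intro h
  have h1 : uv (-x + x) = uv (-x) * uv x := uv_add _ _
  have h0 : uv (-x + x) = 1 := by simp [uv]
  rw [h0, h, mul_zero] at h1
  exact one_ne_zero h1

theorem uv_inj {x y : Additive (OF Fq F)ˣ} (h : uv x = uv y) : x = y := by
  have h1 : ((Additive.toMul x : (OF Fq F)ˣ) : OF Fq F) = (Additive.toMul y : (OF Fq F)ˣ) := Subtype.ext h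
  exact Additive.toMul.injective (Units.ext h1)

theorem uv_int (x : Additive (OF Fq F)ˣ) : IsIntegral Fq[X] (uv x) :=
  ((Additive.toMul x : (OF Fq F)ˣ) : OF Fq F).2

/-- integral elements with integral inverse are units -/
theorem exists_uv (a : F) (h0 : a ≠ 0) (h1 : IsIntegral Fq[X] a) (h2 : IsIntegral Fq[X] a⁻¹) :
    ∃ t : Additive (OF Fq F)ˣ, uv t = a := by
  refine ⟨Additive.ofMul ⟨⟨a, h1⟩, ⟨a⁻¹, h2⟩, ?_, ?_⟩, rfl⟩
  · apply Subtype.ext
    show a * a⁻¹ = 1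
    exact mul_inv_cancel₀ h0
  · apply Subtype.ext
    show a⁻¹ * a = 1
    exact inv_mul_cancel₀ h0

theorem uv_pow {D : F →+ F} (hD : ∀ x y, D (x * y) = x * D y + y * D x) {p : ℕ} (hp : 0 < p)
    (hker : ∀ x, D x = 0 → ∃ y, x = y ^ p) {z : F} {x y : Additive (OF Fq F)ˣ}
    (h1 : D (uv x) = z * uv x) (h2 : D (uv y) = z * uv y) :
    ∃ t : Additive (OF Fq F)ˣ, y = x + p • t := by
  obtain ⟨a, ha⟩ := hker _ (D_div hD (uv_ne x) h1 h2)
  have ha' : a ^ p = uv (y + -x) := by rw [uv_add, uv_neg, ← ha]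
  have ha0 : a ≠ 0 := by
    rintro rfl
    rw [zero_pow hp.ne'] at ha'
    exact uv_ne _ ha'.symm
  obtain ⟨t, ht⟩ := exists_uv (Fq := Fq) a ha0 (by
      apply IsIntegral.of_pow hp
      rw [ha']
      exact uv_int _) (by
      apply IsIntegral.of_pow hp
      rw [inv_pow, ha', ← uv_neg]
      exact uv_int _)
  refine ⟨t, ?_⟩
  apply uv_inj
  rw [uv_add, uv_nsmul, ht, ha', uv_add, uv_neg]
  field_simp [uv_ne x]

variable [Algebra (RatFunc Fq) F] [IsScalarTower Fq[X] (RatFunc Fq) F]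

/-- the action of the automorphisms on the units -/
noncomputable def aU (σ : F ≃ₐ[RatFunc Fq] F) : Additive (OF Fq F)ˣ →+ Additive (OF Fq F)ˣ :=
  MonoidHom.toAdditive (Units.map (sO (Fq := Fq) σ).toMonoidHom)

theorem sO_coe (σ : F ≃ₐ[RatFunc Fq] F) (x : OF Fq F) : ((sO (Fq := Fq) σ x : OF Fq F) : F) = σ x := rfl

theorem uv_aU (σ : F ≃ₐ[RatFunc Fq] F) (x : Additive (OF Fq F)ˣ) : uv (aU σ x) = σ (uv x) := rfl

end units

set_option maxHeartbeats 1000000 in
/-- **PA.** Assembly of part A. -/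
theorem t_PA (hGAL : S_GAL) (hDER : S_DER) (hCAT : S_CAT) (hVAL : S_VAL) (hZGA : S_ZGA) (hHLG : S_HLG)
    (hRTP : S_RTP) (hRHO : S_RHO) (hCLA : S_CLA) (hUNB : S_UNB) : S_PA := by
  intro p hpf Fq E F _ _ _ _ _ _ _ _ _ _ w θ f₀ q d k lm f hDat hCFD hq hk0 hk1 hk2 hlin hfix
  classical
  have hp : p.Prime := hpf.out
  have hp0 : 0 < p := hp.pos
  have hd1 : 1 ≤ d := hDat.hd1
  have h2 : 2 < q ^ d := by omega
  have hq2 : 2 ≤ q := by
    rw [hDat.hq]; exact Fintype.one_lt_card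
  have hf₀ : f₀ ≠ 0 := by
    rintro rfl
    rw [pow_zero] at hq; omega
  have hpq : p ∣ q := by rw [hq]; exact dvd_pow_self p hf₀
  -- the algebra structures
  let algF : Algebra Fq F := ((algebraMap Fq[X] F).comp C).toAlgebra
  have towF : IsScalarTower Fq Fq[X] F := IsScalarTower.of_algebraMap_eq (fun x => rfl)
  have : CharP Fq p := ((algebraMap Fq E).charP_iff (algebraMap Fq E).injective p).mpr inferInstance
  have : CharP F p := ((algebraMap Fq F).charP_iff (algebraMap Fq F).injective p).mp inferInstance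
  obtain ⟨hfd, hgal, hcard, u, hu0, hut, hua⟩ := hGAL Fq E F w θ q d lm hDat hCFD
  have := hfd
  have := hgal
  have : IsDedekindDomain (OF Fq F) := integralClosure.isDedekindDomain Fq[X] (RatFunc Fq) F
  have : IsFractionRing (OF Fq F) F :=
    integralClosure.isFractionRing_of_finite_extension (RatFunc Fq) F
  obtain ⟨D, hDd, hDσ, hDint, hDmax⟩ := hDER Fq E F w θ q d lm hDat hCFD h2
  have hD := hDd.1
  obtain ⟨hDp, hker, Cr, hCr, hCrp, hCrσ, hCrint⟩ :=
    hCAT Fq E F w θ p q d lm D hDat hCFD hp hpq h2 hDd hDσ hDint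
  obtain ⟨ρ, hρ1, hρ2⟩ := hRHO Fq F
  obtain ⟨v, hv⟩ := hVAL Fq E F w θ q d lm hDat hCFD
  obtain ⟨zg, hzC, hzint, hzσ, hzne, hzfix⟩ :=
    hZGA Fq E F w θ p f₀ q d k lm Cr u hDat hCFD hp hq hk0 hk1 hk2 hCr hCrσ hCrint hu0 hut
  by_contra hcon
  obtain ⟨R1, R2, R3, R4, R5⟩ := hRTP (OF Fq F) F p hp0
  have D1 : D 1 = 0 := D_one hD
  -- all units
  have key : ∀ g : E[X], Lam q (g * PP q d k θ) = g → ∀ γ, ∃ x : Additive (OF Fq F)ˣ,
      D (uv x) = zg g γ * uv x := by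
    intro g hg
    have hz : ∀ γ, ∃ (h : F) (c : ClassGroup (OF Fq F)), D h = zg g γ * h ∧ Rt F p h c := by
      intro γ
      obtain ⟨h, h0, hh, I, hI⟩ := hHLG Fq E F w θ p q d lm D Cr (zg g γ) hDat hCFD hp hpq hDd hDint hDmax
        hDp hCrp (hzfix g hg γ) (hzint g γ)
      exact ⟨h, ClassGroup.mk F I, hh, h0, I, hI, rfl⟩
    obtain ⟨κ, hκ⟩ := exists_kappa hRTP p hp0 D hD hker (zg g) hz
    have hκρ : ∀ (σ : F ≃ₐ[RatFunc Fq] F) γ, (MonoidHom.toAdditive (ρ σ)) (κ γ) = κ (u σ ^ k * γ) := by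
      intro σ γ
      obtain ⟨h, c, h1, h2⟩ := hz γ
      rw [hκ γ h c h1 h2]
      have h3 : D (σ h) = zg g (u σ ^ k * γ) * σ h := by
        rw [hDσ, h1, map_mul, hzσ]
      exact (hκ _ _ _ h3 (hρ2 p σ h c h2)).symm
    have hκ0 : κ = 0 := by
      by_contra hne
      obtain ⟨x, hx0, hx⟩ := hCLA p E (F ≃ₐ[RatFunc Fq] F) (Additive (ClassGroup (OF Fq F))) u
        (fun σ => MonoidHom.toAdditive (ρ σ)) k κ hκρ hne
      apply hcon
      refine ⟨inferInstance, ρ, hρ1, x, hx0, ?_⟩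
      intro σ a ha
      rw [← hua σ a ha]
      exact hx σ
    intro γ
    obtain ⟨h, c, h1, h2⟩ := hz γ
    have hc : c = 1 := by
      have h3 := hκ γ h c h1 h2
      rw [hκ0] at h3
      exact (Additive.ofMul.injective h3).symm
    rw [hc] at h2
    obtain ⟨ε, x, hx0, hx⟩ := R3 _ h2
    refine ⟨Additive.ofMul ε, ?_⟩
    have hε : uv (Additive.ofMul ε) = algebraMap (OF Fq F) F ε := rfl
    rw [hε]
    have h4 : D h = x ^ p * D (algebraMap (OF Fq F) F ε) := by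
      rw [hx, hD, D_pow_p hD p hp0, mul_zero, zero_add]
    rw [h1, hx] at h4
    have h5 : x ^ p ≠ 0 := pow_ne_zero _ hx0
    apply mul_left_cancel₀ h5
    rw [← h4]
    ring
  have key2 : ∀ i γ, ∃ x : Additive (OF Fq F)ˣ, D (uv x) = zg (f i) γ * uv x := fun i γ => key (f i) (hfix i) γ
  choose μ hμ using key2
  -- the combinations
  have : Fintype (F ≃ₐ[RatFunc Fq] F) := Fintype.ofFinite _
  have hq1 : 1 ≤ q := by omega
  refine hUNB p E (F ≃ₐ[RatFunc Fq] F) (Additive (OF Fq F)ˣ) u (fun σ => aU σ) k (q ^ d - 1) v μ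
    ?_ hu0 ?_ ?_ ?_ ?_ ?_ ?_ ?_
  · rw [← Nat.card_eq_fintype_card]
    exact hcard p hp hpq
  · intro x
    apply uv_inj
    rw [uv_aU]; rfl
  · intro σ τ x
    apply uv_inj
    rw [uv_aU, uv_aU, uv_aU]; rfl
  · intro hdvd
    have h3 : p ∣ q ^ d := dvd_pow hpq (by omega)
    have h4 : p ∣ 1 := by
      have : q ^ d - (q ^ d - 1) = 1 := by omega
      rw [← this]
      exact Nat.dvd_sub h3 hdvd
    exact hp.one_lt.ne' (Nat.dvd_one.mp h4)
  · intro x hx
    have h3 := hv (Additive.toMul x) (fun σ => hx σ)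
    apply Additive.toMul.injective
    rw [toMul_nsmul, h3]; rfl
  · intro i γ γ'
    apply uv_pow hD hp0 hker (z := zg (f i) (γ + γ'))
    · rw [uv_add, map_add]
      exact D_mul_log hD (hμ i γ) (hμ i γ')
    · exact hμ i (γ + γ')
  · intro i σ γ
    obtain ⟨t, ht⟩ := uv_pow hD hp0 hker (z := zg (f i) (u σ ^ k * γ)) (hμ i (u σ ^ k * γ))
      (y := aU σ (μ i γ)) (by
        rw [uv_aU, hDσ, hμ i γ, map_mul, hzσ])
    exact ⟨t, ht⟩
  · intro e₀ e₁ he
    have hne : C e₀ * f 0 + C e₁ * f 1 ≠ 0 := by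
      intro h0
      have h3 := Fintype.linearIndependent_iff.mp hlin ![e₀, e₁] (by
        rw [Fin.sum_univ_two]
        simpa [smul_eq_C_mul] using h0)
      have h30 := h3 0
      have h31 := h3 1
      simp at h30 h31
      rcases he with he | he
      · exact he h30
      · exact he h31
    have hfx : Lam q ((C e₀ * f 0 + C e₁ * f 1) * PP q d k θ) = C e₀ * f 0 + C e₁ * f 1 := by
      rw [add_mul, mul_assoc, mul_assoc, Lam_add hq1, Lam_C hq1, Lam_C hq1, hfix 0, hfix 1]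
    obtain ⟨γ, hγ⟩ := hzne _ hfx hne
    refine ⟨γ, ?_⟩
    rintro ⟨t, ht⟩
    apply hγ
    have h3 : zg (C e₀ * f 0 + C e₁ * f 1) γ = zg (f 0) (e₀ * γ) + zg (f 1) (e₁ * γ) := by
      rw [map_add, AddMonoidHom.add_apply, hzC, hzC]
    rw [h3]
    have h4 := D_mul_log hD (hμ 0 (e₀ * γ)) (hμ 1 (e₁ * γ))
    rw [← uv_add, ht, uv_nsmul, D_pow_p hD p hp0] at h4
    rcases mul_eq_zero.mp h4.symm with h | h
    · exact h
    · exact absurd h (pow_ne_zero _ (uv_ne _))

end Run7.h410.GK
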